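import Pool.Agent.H559.NT.Stm

/-! Zalcman–Brody rescaling for discs in a compact set of a manifold without bounded entire curves (helper50, project NT of helper559). -/

set_option autoImplicit false

open Set Filter Topology Metric
open scoped Manifold

namespace Pool.Agent.Y50.NT

open Pool.Agent.H559.NT

universe u v

section charts

variable {E : Type u} [NormedAddCommGroup E] [NormedSpace ℂ E]
  {X : Type v} [TopologicalSpace X] [ChartedSpace E X] [IsManifold 𝓘(ℂ, E) 1 X]

/-- a disc map in a chart -/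
theorem diffOn_chart {U : Set ℂ} {h : ℂ → X}
    (hh : MDifferentiableOn 𝓘(ℂ, ℂ) 𝓘(ℂ, E) h U) {c : X}
    (hm : MapsTo h U (chartAt E c).source) :
    DifferentiableOn ℂ (fun z => chartAt E c (h z)) U := by
  have h1 : MDifferentiableOn 𝓘(ℂ, E) 𝓘(ℂ, E) (extChartAt 𝓘(ℂ, E) c) (chartAt E c).source :=
    mdifferentiableOn_extChartAt
  have h2 := h1.comp hh hm
  exact mdifferentiableOn_iff_differentiableOn.mp h2

/-- from a chart to the manifold -/
theorem mdiffOn_symm {f : ℂ → E} {U : Set ℂ} (hf : DifferentiableOn ℂ f U) {c : X}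
    (hm : MapsTo f U (chartAt E c).target) :
    MDifferentiableOn 𝓘(ℂ, ℂ) 𝓘(ℂ, E) (fun z => (chartAt E c).symm (f z)) U := by
  have h1 : MDifferentiableOn 𝓘(ℂ, E) 𝓘(ℂ, E) (extChartAt 𝓘(ℂ, E) c).symm
      (extChartAt 𝓘(ℂ, E) c).target := mdifferentiableOn_extChartAt_symm
  have hm' : U ⊆ f ⁻¹' (extChartAt 𝓘(ℂ, E) c).target := by
    intro z hz
    have := hm hz
    simpa using this
  exact h1.comp (mdifferentiableOn_iff_differentiableOn.mpr hf) hm'

end charts

/-- The rescaling point. -/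
theorem rescale {X : Type v} (g : ℂ → X) {ι : Type v} (P : ι → Set X) {δ : ℝ} (hδ : 0 < δ)
    (hLeb : ∀ s ∈ closedBall (0 : ℂ) (1 / 2), ∃ i, MapsTo g (ball s δ) (P i))
    {ε R : ℝ} (hε : 0 < ε) (hR : 0 < R) (hRε : 2 * R * ε ≤ 1 / 2)
    (h0 : ∀ i, ¬ MapsTo g (ball 0 ε) (P i)) :
    ∃ (s : ℂ) (r : ℝ), 0 < r ∧ r ≤ ε ∧ ‖s‖ ≤ 1 / 2 ∧ (∀ i, ¬ MapsTo g (ball s r) (P i)) ∧
      ∀ s' : ℂ, ‖s' - s‖ ≤ R * r → ∃ i, MapsTo g (ball s' (r / 2)) (P i) := by
  have hpos : 0 < R * ε := mul_pos hR hε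
  obtain ⟨Q, hQ⟩ : ∃ Q : ℕ → Prop, ∀ n, Q n ↔ ∃ s : ℂ, ‖s‖ ≤ 2 * R * ε * (1 - (1 / 2) ^ n) ∧
    ∀ i, ¬ MapsTo g (ball s (ε * (1 / 2) ^ n)) (P i) := ⟨_, fun n => Iff.rfl⟩
  have hhalf : ∀ n : ℕ, (0 : ℝ) < (1 / 2) ^ n := fun n => by positivity
  have hle : ∀ n : ℕ, 2 * R * ε * (1 - (1 / 2) ^ n) ≤ 1 / 2 := by
    intro n
    have := hhalf n
    nlinarith
  have hQ0 : Q 0 := by
    rw [hQ]
    refine ⟨0, by simp, ?_⟩
    simpa using h0
  have hnot : ¬ ∀ n, Q n := by
    intro hall
    obtain ⟨n, hn⟩ := exists_pow_lt_of_lt_one (div_pos hδ hε) (by norm_num : (1 / 2 : ℝ) < 1)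
    obtain ⟨s, hs1, hs2⟩ := (hQ n).mp (hall n)
    obtain ⟨i, hi⟩ := hLeb s (by
      rw [mem_closedBall, dist_zero_right]
      exact hs1.trans (hle n))
    apply hs2 i
    refine hi.mono_left (ball_subset_ball ?_)
    rw [lt_div_iff₀ hε] at hn
    linarith
  have hstep : ∃ n, Q n ∧ ¬ Q (n + 1) := by
    by_contra hcon
    push Not at hcon
    apply hnot
    intro n
    induction n with
    | zero => exact hQ0
    | succ n ih => exact hcon n ih
  obtain ⟨n, hn1, hn2⟩ := hstep
  obtain ⟨s, hs1, hs2⟩ := (hQ n).mp hn1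
  refine ⟨s, ε * (1 / 2) ^ n, mul_pos hε (hhalf n), ?_, hs1.trans (hle n), hs2, ?_⟩
  · have : ((1 / 2 : ℝ)) ^ n ≤ 1 := pow_le_one₀ (by norm_num) (by norm_num)
    nlinarith
  · intro s' hs'
    by_contra hcon
    push Not at hcon
    apply hn2
    rw [hQ]
    refine ⟨s', ?_, ?_⟩
    · have h1 : ‖s'‖ ≤ ‖s' - s‖ + ‖s‖ := by
        calc ‖s'‖ = ‖(s' - s) + s‖ := by rw [sub_add_cancel]
          _ ≤ _ := norm_add_le _ _
      have h2 : 2 * R * ε * (1 - (1 / 2) ^ (n + 1)) =
          R * (ε * (1 / 2) ^ n) + 2 * R * ε * (1 - (1 / 2) ^ n) := by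
        rw [pow_succ]; ring
      rw [h2]
      linarith
    · intro i hi
      apply hcon i
      refine hi.mono_left (ball_subset_ball (le_of_eq ?_))
      rw [pow_succ]; ring

/-- Zalcman–Brody rescaling for discs. -/
theorem disc (hE : S_ELIM.{0, u}) (hCy : S_CAUCHY.{0, u}) : S_DISC.{u, v} := by
  intro E _ _ _ X _ _ _ _ hNo C hC g hg hgC y hy t ht
  have : ProperSpace E := FiniteDimensional.proper ℂ E
  have : CompleteSpace E := FiniteDimensional.complete ℂ E
  have : LocallyCompactSpace X := ChartedSpace.locallyCompactSpace E X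
  by_contra hbad
  -- the cover
  have hK : ∀ c : X, ∃ K : Set X, IsCompact K ∧ c ∈ interior K ∧ K ⊆ (chartAt E c).source :=
    fun c => exists_compact_subset (chartAt E c).open_source (mem_chart_source E c)
  choose K hKc hcK hKs using hK
  obtain ⟨S, hSC, hScov⟩ := hC.elim_nhds_subcover (fun c => interior (K c))
    (fun c _ => isOpen_interior.mem_nhds (hcK c))
  have hM : ∀ c, ∃ M : ℝ, ∀ x ∈ K c, ‖chartAt E c x‖ ≤ M := by
    intro c
    obtain ⟨M, hM⟩ := ((hKc c).image_of_continuousOn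
      ((chartAt E c).continuousOn.mono (hKs c))).isBounded.exists_norm_le
    exact ⟨M, fun x hx => hM _ (mem_image_of_mem _ hx)⟩
  choose M hM using hM
  have hcov : ∀ x ∈ C, ∃ c ∈ S, x ∈ interior (K c) := by
    intro x hx
    have := hScov hx
    rw [mem_iUnion₂] at this
    obtain ⟨c, h1, h2⟩ := this
    exact ⟨c, h1, h2⟩
  -- the bad ultrafilter
  rw [not_tendsto_iff_exists_frequently_notMem] at hbad
  obtain ⟨O, hO, hfr⟩ := hbad
  have : NeBot (atTop ⊓ 𝓟 {k : ℕ | g k (t k) ∉ O}) := frequently_mem_iff_neBot.mp hfr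
  obtain ⟨l, hl⟩ : ∃ l : Ultrafilter ℕ, (l : Filter ℕ) ≤ atTop ⊓ 𝓟 {k : ℕ | g k (t k) ∉ O} :=
    ⟨Ultrafilter.of _, Ultrafilter.of_le _⟩
  have hl1 : (l : Filter ℕ) ≤ atTop := hl.trans inf_le_left
  have hl2 : ∀ᶠ k in (l : Filter ℕ), g k (t k) ∉ O :=
    (hl.trans inf_le_right) (mem_principal_self _)
  have step1 : ∀ ε : ℝ, 0 < ε → ε ≤ 1 → ∀ c : X, ∀ᶠ k in (l : Filter ℕ),
      ¬ MapsTo (g k) (ball 0 ε) (interior (K c)) := by
    intro ε hε hε1 c
    by_contra hcon
    have hev : ∀ᶠ k in (l : Filter ℕ), MapsTo (g k) (ball 0 ε) (interior (K c)) := by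
      have : ∃ᶠ k in (l : Filter ℕ), MapsTo (g k) (ball 0 ε) (interior (K c)) := by
        rw [Filter.Frequently]
        exact hcon
      exact Ultrafilter.frequently_iff_eventually.mp this
    have hyl : Tendsto (fun k => g k 0) (l : Filter ℕ) (𝓝 y) := hy.mono_left hl1
    have htl : Tendsto t (l : Filter ℕ) (𝓝 0) := ht.mono_left hl1
    have hyK : y ∈ K c := by
      refine (hKc c).isClosed.mem_of_tendsto hyl ?_
      filter_upwards [hev] with k hk
      exact interior_subset (hk (mem_ball_self hε))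
    have hys := hKs c hyK
    have T0 : Tendsto (fun k => chartAt E c (g k 0)) (l : Filter ℕ) (𝓝 (chartAt E c y)) :=
      ((chartAt E c).continuousAt hys).tendsto.comp hyl
    have hlip : ∀ᶠ k in (l : Filter ℕ), ‖chartAt E c (g k (t k)) - chartAt E c (g k 0)‖ ≤
        2 * M c / ε * ‖t k - 0‖ := by
      have htb : ∀ᶠ k in (l : Filter ℕ), t k ∈ ball (0 : ℂ) (ε / 2) :=
        htl (ball_mem_nhds _ (by positivity))
      filter_upwards [hev, htb] with k hk hkt
      have hd : DifferentiableOn ℂ (fun z => chartAt E c (g k z)) (ball 0 ε) :=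
        diffOn_chart ((hg k).mono (ball_subset_ball hε1))
          (fun z hz => hKs c (interior_subset (hk hz)))
      exact (hCy ℂ E (fun z => chartAt E c (g k z)) 0 ε (M c) hε hd
        (fun z hz => hM c _ (interior_subset (hk hz)))).2 (t k) hkt 0
          (mem_ball_self (by positivity))
    have T1 : Tendsto (fun k => chartAt E c (g k (t k)) - chartAt E c (g k 0)) (l : Filter ℕ)
        (𝓝 0) := by
      have h1 : Tendsto (fun k => 2 * M c / ε * ‖t k - 0‖) (l : Filter ℕ) (𝓝 0) := by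
        have h2 : Tendsto (fun k => ‖t k - 0‖) (l : Filter ℕ) (𝓝 0) := by
          have := htl.norm
          simpa using this
        simpa using h2.const_mul (2 * M c / ε)
      exact squeeze_zero_norm' hlip h1
    have T2 : Tendsto (fun k => chartAt E c (g k (t k))) (l : Filter ℕ)
        (𝓝 (chartAt E c y)) := by
      have := T1.add T0
      simpa using this
    have T3 : Tendsto (fun k => (chartAt E c).symm (chartAt E c (g k (t k)))) (l : Filter ℕ)
        (𝓝 y) := by
      have h1 := ((chartAt E c).continuousAt_symm ((chartAt E c).map_source hys)).tendsto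
      rw [(chartAt E c).left_inv hys] at h1
      exact h1.comp T2
    have T4 : Tendsto (fun k => g k (t k)) (l : Filter ℕ) (𝓝 y) := by
      refine T3.congr' ?_
      have htb : ∀ᶠ k in (l : Filter ℕ), t k ∈ ball (0 : ℂ) ε := htl (ball_mem_nhds _ hε)
      filter_upwards [hev, htb] with k hk hkt
      exact (chartAt E c).left_inv (hKs c (interior_subset (hk hkt)))
    have h5 := T4 hO
    obtain ⟨k, hk1, hk2⟩ := (hl2.and h5).exists
    exact hk1 hk2
  -- the rescaled maps
  have step2 : ∀ n : ℕ, ∃ h : ℂ → X,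
      MDifferentiableOn 𝓘(ℂ, ℂ) 𝓘(ℂ, E) h (ball 0 (n + 1)) ∧ MapsTo h (ball 0 (n + 1)) C ∧
      (∀ c ∈ S, ¬ MapsTo h (ball 0 1) (interior (K c))) ∧
      ∀ z : ℂ, ‖z‖ ≤ n + 1 → ∃ c ∈ S, MapsTo h (ball z (1 / 2)) (interior (K c)) := by
    intro n
    have hn : (0 : ℝ) < n + 1 := by positivity
    have hε : (0 : ℝ) < 1 / (4 * (n + 1)) := by positivity
    have hεn : 1 / (4 * ((n : ℝ) + 1)) * (n + 1) = 1 / 4 := by field_simp
    have hε1 : 1 / (4 * ((n : ℝ) + 1)) ≤ 1 / 4 := by
      have h0 : (0 : ℝ) ≤ n := Nat.cast_nonneg n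
      have h1 : 0 < 1 / (4 * ((n : ℝ) + 1)) := hε
      nlinarith
    have hall : ∀ᶠ k in (l : Filter ℕ), ∀ c ∈ S,
        ¬ MapsTo (g k) (ball 0 (1 / (4 * ((n : ℝ) + 1)))) (interior (K c)) := by
      rw [Filter.eventually_all_finset]
      intro c _
      exact step1 _ hε (hε1.trans (by norm_num)) c
    obtain ⟨k, hk⟩ := hall.exists
    have hgk : ContinuousOn (g k) (ball 0 1) := (hg k).continuousOn
    obtain ⟨δ, hδ, hLeb⟩ := lebesgue_number_lemma_of_metric
      (isCompact_closedBall (0 : ℂ) (1 / 2))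
      (c := fun c : S => ball (0 : ℂ) 1 ∩ (g k) ⁻¹' (interior (K c)))
      (fun c => hgk.isOpen_inter_preimage isOpen_ball isOpen_interior) (by
        intro z hz
        have hz1 : z ∈ ball (0 : ℂ) 1 := by
          rw [mem_closedBall] at hz
          rw [mem_ball]
          linarith
        obtain ⟨c, h1, h2⟩ := hcov _ (hgC k hz1)
        rw [mem_iUnion]
        exact ⟨⟨c, h1⟩, hz1, h2⟩)
    obtain ⟨s, r, hr, hrε, hs, hno, hyes⟩ := rescale (g k) (fun c : S => interior (K c)) hδ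
      (fun s hs => by
        obtain ⟨i, hi⟩ := hLeb s hs
        exact ⟨i, fun z hz => (hi hz).2⟩) hε hn (by
          have : 2 * ((n : ℝ) + 1) * (1 / (4 * (n + 1))) = 2 * (1 / (4 * ((n : ℝ) + 1)) * (n + 1)) := by
            ring
          rw [this, hεn]
          norm_num) (fun i => hk i i.2)
    have hmaps : ∀ z : ℂ, ‖z‖ < n + 1 → s + r * z ∈ ball (0 : ℂ) 1 := by
      intro z hz
      rw [mem_ball, dist_zero_right]
      have h1 : ‖(r : ℂ) * z‖ = r * ‖z‖ := by
        rw [norm_mul, Complex.norm_real, Real.norm_of_nonneg hr.le]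
      have h2 : r * ‖z‖ ≤ 1 / (4 * ((n : ℝ) + 1)) * (n + 1) :=
        mul_le_mul hrε hz.le (norm_nonneg _) hε.le
      rw [hεn] at h2
      have h3 := norm_add_le s ((r : ℂ) * z)
      rw [h1] at h3
      linarith
    refine ⟨fun z => g k (s + r * z), ?_, ?_, ?_, ?_⟩
    · have haff : MDifferentiableOn 𝓘(ℂ, ℂ) 𝓘(ℂ, ℂ) (fun z : ℂ => s + r * z)
          (ball 0 ((n : ℝ) + 1)) := by
        rw [mdifferentiableOn_iff_differentiableOn]
        fun_prop
      refine (hg k).comp haff ?_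
      intro z hz
      rw [mem_ball, dist_zero_right] at hz
      exact hmaps z hz
    · intro z hz
      rw [mem_ball, dist_zero_right] at hz
      exact hgC k (hmaps z hz)
    · intro c hc hcon
      apply hno ⟨c, hc⟩
      intro w hw
      rw [mem_ball, dist_eq_norm] at hw
      have hr' : (r : ℂ) ≠ 0 := by exact_mod_cast hr.ne'
      have h1 : (w - s) / r ∈ ball (0 : ℂ) 1 := by
        rw [mem_ball, dist_zero_right, norm_div, Complex.norm_real, Real.norm_of_nonneg hr.le,
          div_lt_one hr]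
        exact hw
      have h2 := hcon h1
      have h3 : s + r * ((w - s) / r) = w := by field_simp; ring
      simp only [h3] at h2
      exact h2
    · intro z hz
      obtain ⟨⟨c, hc⟩, hi⟩ := hyes (s + r * z) (by
        rw [add_sub_cancel_left, norm_mul, Complex.norm_real, Real.norm_of_nonneg hr.le, mul_comm]
        exact mul_le_mul_of_nonneg_right hz hr.le)
      refine ⟨c, hc, ?_⟩
      intro w hw
      apply hi
      rw [mem_ball, dist_eq_norm] at hw ⊢
      have h1 : s + r * w - (s + r * z) = r * (w - z) := by ring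
      rw [h1, norm_mul, Complex.norm_real, Real.norm_of_nonneg hr.le]
      nlinarith
  choose h hh1 hh2 hh3 hh4 using step2
  -- the limit
  obtain ⟨m, hm⟩ : ∃ m : Ultrafilter ℕ, (m : Filter ℕ) ≤ atTop :=
    ⟨hyperfilter ℕ, Nat.hyperfilter_le_atTop⟩
  have hbig : ∀ a : ℝ, ∀ᶠ n : ℕ in (m : Filter ℕ), a < n + 1 := by
    intro a
    apply hm
    filter_upwards [eventually_ge_atTop ⌈a⌉₊] with n hn
    have := Nat.ceil_le.mp hn
    linarith
  have hlim : ∀ z : ℂ, ∃ x ∈ C, Tendsto (fun n => h n z) (m : Filter ℕ) (𝓝 x) := by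
    intro z
    obtain ⟨x, hx1, hx2⟩ := hC.ultrafilter_le_nhds (m.map (fun n => h n z)) (by
      rw [le_principal_iff]
      have : ∀ᶠ n in (m : Filter ℕ), h n z ∈ C := by
        filter_upwards [hbig ‖z‖] with n hn
        exact hh2 n (by rw [mem_ball, dist_zero_right]; exact hn)
      exact this)
    exact ⟨x, hx1, hx2⟩
  choose H hHC hH using hlim
  have hloc : ∀ z : ℂ, ∃ c ∈ S, ∀ᶠ n in (m : Filter ℕ),
      MapsTo (h n) (ball z (1 / 2)) (interior (K c)) := by
    intro z
    have h1 : (⋃ c ∈ (↑S : Set X), {n : ℕ | MapsTo (h n) (ball z (1 / 2)) (interior (K c))}) ∈ m := by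
      have : ∀ᶠ n in (m : Filter ℕ), n ∈ (⋃ c ∈ (↑S : Set X),
          {n : ℕ | MapsTo (h n) (ball z (1 / 2)) (interior (K c))}) := by
        filter_upwards [hbig ‖z‖] with n hn
        obtain ⟨c, hc1, hc2⟩ := hh4 n z hn.le
        rw [mem_iUnion₂]
        exact ⟨c, hc1, hc2⟩
      exact this
    rw [Ultrafilter.finite_biUnion_mem_iff S.finite_toSet] at h1
    obtain ⟨c, hc1, hc2⟩ := h1
    exact ⟨c, hc1, hc2⟩
  have hconv : ∀ z : ℂ, ∃ c ∈ S, (∀ᶠ n in (m : Filter ℕ),
      MapsTo (h n) (ball z (1 / 2)) (interior (K c))) ∧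
      (∀ w ∈ ball z (1 / 2), H w ∈ (chartAt E c).source) ∧
      DifferentiableOn ℂ (fun w => chartAt E c (H w)) (ball z (1 / 2)) ∧
      TendstoUniformlyOn (fun n w => chartAt E c (h n w)) (fun w => chartAt E c (H w))
        (m : Filter ℕ) (ball z (1 / 4)) := by
    intro z
    obtain ⟨c, hc, hev⟩ := hloc z
    have hHK : ∀ w ∈ ball z (1 / 2), H w ∈ (chartAt E c).source := by
      intro w hw
      apply hKs c
      refine (hKc c).isClosed.mem_of_tendsto (hH w) ?_
      filter_upwards [hev] with n hn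
      exact interior_subset (hn hw)
    have hres := hE ℂ E ℕ (m : Filter ℕ) (fun n w => chartAt E c (h n w))
      (fun w => chartAt E c (H w)) z (1 / 2) (M c) (by norm_num) (by
        filter_upwards [hev, hbig (‖z‖ + 1 / 2)] with n hn hn2
        refine ⟨diffOn_chart ((hh1 n).mono ?_) (fun w hw => hKs c (interior_subset (hn hw))),
          fun w hw => hM c _ (interior_subset (hn hw))⟩
        intro w hw
        rw [mem_ball, dist_eq_norm] at hw
        rw [mem_ball, dist_zero_right]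
        have : ‖w‖ ≤ ‖w - z‖ + ‖z‖ := by
          calc ‖w‖ = ‖(w - z) + z‖ := by rw [sub_add_cancel]
            _ ≤ _ := norm_add_le _ _
        linarith) (by
        intro w hw
        exact ((chartAt E c).continuousAt (hHK w hw)).tendsto.comp (hH w))
    refine ⟨c, hc, hev, hHK, hres.1, ?_⟩
    have h4 := hres.2
    rw [show (1 / 2 / 2 : ℝ) = 1 / 4 by norm_num] at h4
    exact h4
  have hdiff : MDifferentiable 𝓘(ℂ, ℂ) 𝓘(ℂ, E) H := by
    intro z
    obtain ⟨c, hc, -, hHs, hd, -⟩ := hconv z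
    have h1 : MDifferentiableOn 𝓘(ℂ, ℂ) 𝓘(ℂ, E)
        (fun w => (chartAt E c).symm (chartAt E c (H w))) (ball z (1 / 2)) :=
      mdiffOn_symm hd (fun w hw => (chartAt E c).map_source (hHs w hw))
    have h2 : MDifferentiableOn 𝓘(ℂ, ℂ) 𝓘(ℂ, E) H (ball z (1 / 2)) :=
      h1.congr (fun w hw => ((chartAt E c).left_inv (hHs w hw)).symm)
    exact h2.mdifferentiableAt (ball_mem_nhds _ (by norm_num))
  have hconst := hNo H hdiff ⟨C, hC, hHC⟩
  obtain ⟨c0, hc0, hx0⟩ := hcov (H 0) (hHC 0)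
  have hnear : ∀ z : ℂ, ∀ᶠ n in (m : Filter ℕ), MapsTo (h n) (ball z (1 / 4)) (interior (K c0)) := by
    intro z
    obtain ⟨c, hc, hev, hHs, -, hu⟩ := hconv z
    have h0s : H 0 ∈ (chartAt E c).source := by
      have := hHs z (mem_ball_self (by norm_num))
      rwa [hconst z 0] at this
    have hnb : {e : E | (chartAt E c).symm e ∈ interior (K c0)} ∈ 𝓝 (chartAt E c (H 0)) := by
      have h1 := ((chartAt E c).continuousAt_symm ((chartAt E c).map_source h0s)).tendsto
      rw [(chartAt E c).left_inv h0s] at h1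
      exact h1 (isOpen_interior.mem_nhds hx0)
    obtain ⟨δ, hδ, hδs⟩ := Metric.mem_nhds_iff.mp hnb
    have hu' := Metric.tendstoUniformlyOn_iff.mp hu δ hδ
    filter_upwards [hev, hu'] with n hn hn2
    intro w hw
    have hw2 : w ∈ ball z (1 / 2) := ball_subset_ball (by norm_num) hw
    have h2 := hn2 w hw
    rw [hconst w 0] at h2
    have h3 : chartAt E c (h n w) ∈ ball (chartAt E c (H 0)) δ := by
      rw [mem_ball, dist_comm]
      exact h2
    have h4 := hδs h3
    have h5 : (chartAt E c).symm (chartAt E c (h n w)) ∈ interior (K c0) := h4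
    rw [(chartAt E c).left_inv (hKs c (interior_subset (hn hw2)))] at h5
    exact h5
  have hcpt : ∀ᶠ n in (m : Filter ℕ), MapsTo (h n) (closedBall 0 1) (interior (K c0)) := by
    refine (isCompact_closedBall (0 : ℂ) 1).induction_on
      (p := fun s => ∀ᶠ n in (m : Filter ℕ), MapsTo (h n) s (interior (K c0))) ?_ ?_ ?_ ?_
    · exact Eventually.of_forall fun n => mapsTo_empty _ _
    · intro s s' hss hs'
      filter_upwards [hs'] with n hn
      exact hn.mono_left hss
    · intro s s' hs hs'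
      filter_upwards [hs, hs'] with n hn hn'
      exact hn.union hn'
    · intro z _
      exact ⟨ball z (1 / 4), mem_nhdsWithin_of_mem_nhds (ball_mem_nhds _ (by norm_num)), hnear z⟩
  obtain ⟨n, hn⟩ := hcpt.exists
  exact hh3 n c0 hc0 (hn.mono_left ball_subset_closedBall)

end Pool.Agent.Y50.NT
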